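import Pool.Agent.Y455.BH.Conj

/-!
# Project BH: the kernel of the action on vectors is central (CENT)
-/

set_option autoImplicit false

open scoped commutatorElement

namespace Pool.Agent.Y455.BH

open Y208.BH

section
variable {R I : Type} [Ring R]

/-! ### columns -/

/-- the generators of the column subgroup -/
def colS (R : Type) {I : Type} [Ring R] (m : I) : Set (SU R I) := {z | ∃ i r, i ≠ m ∧ z = xs i m r}

theorem colS_comm (m : I) : ∀ x ∈ colS R m, ∀ y ∈ colS R m, x * y = y * x := by
  rintro _ ⟨i, r, hi, rfl⟩ _ ⟨j, s, hj, rfl⟩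
  exact (xs_comm hj.symm hi r s).eq

/-- the generators of the row subgroup -/
def rowS (R : Type) {I : Type} [Ring R] (m : I) : Set (SU R I) := {z | ∃ i r, i ≠ m ∧ z = xs m i r}

theorem rowS_comm (m : I) : ∀ x ∈ rowS R m, ∀ y ∈ rowS R m, x * y = y * x := by
  rintro _ ⟨i, r, hi, rfl⟩ _ ⟨j, s, hj, rfl⟩
  exact (xs_comm hi hj.symm r s).eq

/-- a product over a family of commuting additive maps -/
theorem exists_prod (S : Set (SU R I)) (hS : ∀ x ∈ S, ∀ y ∈ S, x * y = y * x)
    (c : I → R → SU R I) (hc : ∀ i r, c i r ∈ S ∨ c i r = 1)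
    (hadd : ∀ i a b, c i (a + b) = c i a * c i b) (h0 : ∀ i, c i 0 = 1) :
    ∃ C : (I →₀ R) → SU R I, (∀ v w, C (v + w) = C v * C w) ∧
      (∀ i r, C (Finsupp.single i r) = c i r) := by
  classical
  let _ : CommGroup (Subgroup.closure S) := Subgroup.closureCommGroupOfComm hS
  have hmem : ∀ i r, c i r ∈ Subgroup.closure S := by
    intro i r
    rcases hc i r with h | h
    · exact Subgroup.subset_closure h
    · rw [h]; exact Subgroup.one_mem _
  let φ : I → R →+ Additive (Subgroup.closure S) := fun i =>
    { toFun := fun r => Additive.ofMul (⟨c i r, hmem i r⟩ : Subgroup.closure S)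
      map_zero' := by
        rw [← ofMul_one]
        congr 1
        exact Subtype.ext (h0 i)
      map_add' := fun a b => by
        rw [← ofMul_mul]
        congr 1
        exact Subtype.ext (hadd i a b) }
  let Φ : (I →₀ R) →+ Additive (Subgroup.closure S) := Finsupp.liftAddHom φ
  refine ⟨fun v => ((Additive.toMul (Φ v) : Subgroup.closure S) : SU R I), fun v w => ?_,
    fun i r => ?_⟩
  · beta_reduce
    rw [map_add, toMul_add]
    rfl
  · have : Φ (Finsupp.single i r) = φ i r := Finsupp.liftAddHom_apply_single φ i r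
    simp only [this]
    rfl

theorem exists_col (m : I) : ∃ C : (I →₀ R) → SU R I, (∀ v w, C (v + w) = C v * C w) ∧
    (∀ i r, C (Finsupp.single i r) = xs i m r) := by
  refine exists_prod (colS R m) (colS_comm m) (fun i r => xs i m r) (fun i r => ?_)
    (fun i a b => xs_add _ _ _ _) (fun i => xs_zero _ _)
  by_cases h : i = m
  · subst h
    exact Or.inr (xs_self _ _)
  · exact Or.inl ⟨i, r, h, rfl⟩

theorem exists_row (m : I) : ∃ D : (I →₀ R) → SU R I, (∀ v w, D (v + w) = D v * D w) ∧
    (∀ i r, D (Finsupp.single i r) = xs m i r) := by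
  refine exists_prod (rowS R m) (rowS_comm m) (fun i r => xs m i r) (fun i r => ?_)
    (fun i a b => xs_add _ _ _ _) (fun i => xs_zero _ _)
  by_cases h : i = m
  · subst h
    exact Or.inr (xs_self _ _)
  · exact Or.inl ⟨i, r, h, rfl⟩

theorem col_conj {m : I} {C : (I →₀ R) → SU R I} (hC : ∀ v w, C (v + w) = C v * C w)
    (hC1 : ∀ i r, C (Finsupp.single i r) = xs i m r) {i j : I} (hij : i ≠ j) (him : i ≠ m)
    (hjm : j ≠ m) (r : R) (v : I →₀ R) :
    xs i j r * C v * (xs i j r)⁻¹ = C (el i j r v) := by
  classical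
  have hC0 : C 0 = 1 := by
    have := hC 0 0
    rw [add_zero] at this
    exact left_eq_mul.mp this
  rw [el_apply hij]
  induction v using Finsupp.induction_linear with
  | zero => simp [hC0]
  | add v w hv hw =>
    have e1 : xs i j r * C (v + w) * (xs i j r)⁻¹ =
        (xs i j r * C v * (xs i j r)⁻¹) * (xs i j r * C w * (xs i j r)⁻¹) := by
      rw [hC]
      group
    rw [e1, hv, hw, ← hC]
    congr 1
    rw [Finsupp.add_apply, smul_add, Finsupp.single_add]
    abel
  | single k a =>
    by_cases hkj : k = j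
    · subst hkj
      rw [hC1, cj1 hij hjm him, hC, hC1, Finsupp.single_eq_same, hC1, smul_eq_mul]
      exact (xs_comm (Ne.symm hjm) him (r * a) a).eq
    · rw [hC1, hC, hC1, Finsupp.single_eq_of_ne (Ne.symm hkj), smul_zero, Finsupp.single_zero, hC0,
        mul_one]
      by_cases hkm : k = m
      · subst hkm
        rw [xs_self]
        group
      · exact cj3 (Ne.symm hkj) him r a

/-- the row operation -/
noncomputable def er (i j : I) (r : R) (w : I →₀ R) : I →₀ R := w - Finsupp.single j (w i * r)

theorem row_conj {m : I} {D : (I →₀ R) → SU R I} (hD : ∀ v w, D (v + w) = D v * D w)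
    (hD1 : ∀ i r, D (Finsupp.single i r) = xs m i r) {i j : I} (hij : i ≠ j) (him : i ≠ m)
    (hjm : j ≠ m) (r : R) (w : I →₀ R) :
    xs i j r * D w * (xs i j r)⁻¹ = D (er i j r w) := by
  classical
  have hD0 : D 0 = 1 := by
    have := hD 0 0
    rw [add_zero] at this
    exact left_eq_mul.mp this
  unfold er
  induction w using Finsupp.induction_linear with
  | zero => simp [hD0]
  | add v w hv hw =>
    have e1 : xs i j r * D (v + w) * (xs i j r)⁻¹ =
        (xs i j r * D v * (xs i j r)⁻¹) * (xs i j r * D w * (xs i j r)⁻¹) := by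
      rw [hD]
      group
    rw [e1, hv, hw, ← hD]
    congr 1
    rw [Finsupp.add_apply, add_mul, Finsupp.single_add]
    abel
  | single k a =>
    by_cases hki : k = i
    · subst hki
      rw [hD1, cj2 (Ne.symm him) hij (Ne.symm hjm), Finsupp.single_eq_same, sub_eq_add_neg,
        ← Finsupp.single_neg, hD, hD1, hD1]
      exact (xs_comm hjm (Ne.symm him) (-(a * r)) a).eq
    · rw [hD1, Finsupp.single_eq_of_ne (Ne.symm hki), zero_mul, Finsupp.single_zero, sub_zero, hD1]
      by_cases hkm : k = m
      · subst hkm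
        rw [xs_self]
        group
      · exact cj3 hjm (Ne.symm hki) r a

/-- the pairing -/
noncomputable def pg (w v : I →₀ R) : R := w.sum fun k a => a * v k

theorem pg_add_left (w w' v : I →₀ R) : pg (w + w') v = pg w v + pg w' v := by
  classical
  unfold pg
  exact Finsupp.sum_add_index' (fun _ => zero_mul _) (fun _ _ _ => add_mul _ _ _)

theorem pg_neg_left (w v : I →₀ R) : pg (-w) v = -pg w v := by
  have h := pg_add_left w (-w) v
  rw [add_neg_cancel] at h
  have h0 : pg 0 v = 0 := by
    unfold pg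
    exact Finsupp.sum_zero_index
  rw [h0] at h
  exact (neg_eq_of_add_eq_zero_right h.symm).symm

theorem pg_single_left (k : I) (a : R) (v : I →₀ R) : pg (Finsupp.single k a) v = a * v k := by
  unfold pg
  exact Finsupp.sum_single_index (zero_mul _)

theorem pg_add_right (w v v' : I →₀ R) : pg w (v + v') = pg w v + pg w v' := by
  unfold pg
  rw [← Finsupp.sum_add]
  simp only [Finsupp.add_apply, mul_add]

theorem pg_single_right (w : I →₀ R) (k : I) (a : R) : pg w (Finsupp.single k a) = w k * a := by
  classical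
  unfold pg
  rw [Finsupp.sum]
  by_cases hk : k ∈ w.support
  · rw [Finset.sum_eq_single k]
    · rw [Finsupp.single_eq_same]
    · intro b _ hb
      rw [Finsupp.single_eq_of_ne hb, mul_zero]
    · intro h; exact absurd hk h
  · rw [Finset.sum_eq_zero, Finsupp.notMem_support_iff.mp hk, zero_mul]
    intro b hb
    have : b ≠ k := fun h => hk (h ▸ hb)
    rw [Finsupp.single_eq_of_ne this, mul_zero]

theorem pg_er (i j : I) (hij : i ≠ j) (r : R) (w v : I →₀ R) :
    pg (er i j r w) (el i j r v) = pg w v := by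
  unfold er
  rw [el_apply hij, sub_eq_add_neg, pg_add_left, pg_neg_left, pg_single_left, pg_add_right,
    pg_single_right, Finsupp.add_apply, Finsupp.single_eq_of_ne hij.symm, add_zero, smul_eq_mul,
    mul_assoc]
  abel

/-- the row operation as a permutation -/
noncomputable def erP (i j : I) (hij : i ≠ j) (r : R) : Equiv.Perm (I →₀ R) where
  toFun := er i j r
  invFun := fun w => w + Finsupp.single j (w i * r)
  left_inv w := by
    unfold er
    beta_reduce
    rw [Finsupp.sub_apply, Finsupp.single_eq_of_ne hij, sub_zero, sub_add_cancel]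
  right_inv w := by
    unfold er
    beta_reduce
    rw [Finsupp.add_apply, Finsupp.single_eq_of_ne hij, add_zero, add_sub_cancel_right]

/-- the elements of the subgroup `SJ` act on the columns and the rows -/
theorem act_SJ {m : I} {J : Set I} (hm : m ∉ J) {C D : (I →₀ R) → SU R I}
    (hC : ∀ v w, C (v + w) = C v * C w) (hC1 : ∀ i r, C (Finsupp.single i r) = xs i m r)
    (hD : ∀ v w, D (v + w) = D v * D w) (hD1 : ∀ i r, D (Finsupp.single i r) = xs m i r)
    {h : SU R I} (hh : h ∈ SJ R J) :
    (∀ v, h * C v * h⁻¹ = C (rho R R I h v)) ∧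
    ∃ φ : Equiv.Perm (I →₀ R), (∀ w, h * D w * h⁻¹ = D (φ w)) ∧
      ∀ w v, pg (φ w) (rho R R I h v) = pg w v := by
  induction hh using Subgroup.closure_induction with
  | mem x hx =>
    obtain ⟨i, j, r, hi, hj, hij, rfl⟩ := hx
    have him : i ≠ m := fun h => hm (h ▸ hi)
    have hjm : j ≠ m := fun h => hm (h ▸ hj)
    refine ⟨fun v => ?_, erP i j hij r, fun w => ?_, fun w v => ?_⟩
    · rw [rho_xs]
      exact col_conj hC hC1 hij him hjm r v
    · exact row_conj hD hD1 hij him hjm r w
    · rw [rho_xs]
      exact pg_er i j hij r w v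
  | one =>
    refine ⟨fun v => by rw [map_one]; simp, 1, fun w => by simp, fun w v => by
      rw [map_one]; rfl⟩
  | mul x y _ _ hx hy =>
    obtain ⟨hx1, φ, hx2, hx3⟩ := hx
    obtain ⟨hy1, ψ, hy2, hy3⟩ := hy
    refine ⟨fun v => ?_, φ * ψ, fun w => ?_, fun w v => ?_⟩
    · have e : x * y * C v * (x * y)⁻¹ = x * (y * C v * y⁻¹) * x⁻¹ := by group
      rw [e, hy1, hx1, map_mul, Equiv.Perm.mul_apply]
    · have e : x * y * D w * (x * y)⁻¹ = x * (y * D w * y⁻¹) * x⁻¹ := by group
      rw [e, hy2, hx2, Equiv.Perm.mul_apply]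
    · rw [map_mul, Equiv.Perm.mul_apply, Equiv.Perm.mul_apply, hx3, hy3]
  | inv x _ hx =>
    obtain ⟨hx1, φ, hx2, hx3⟩ := hx
    refine ⟨fun v => ?_, φ⁻¹, fun w => ?_, fun w v => ?_⟩
    · have h1 := hx1 ((rho R R I x⁻¹) v)
      rw [← Equiv.Perm.mul_apply, ← map_mul, mul_inv_cancel, map_one, Equiv.Perm.one_apply] at h1
      rw [← h1]
      group
    · have h1 := hx2 (φ⁻¹ w)
      rw [← Equiv.Perm.mul_apply, mul_inv_cancel, Equiv.Perm.one_apply] at h1
      rw [← h1]
      group
    · have h1 := hx3 (φ⁻¹ w) ((rho R R I x⁻¹) v)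
      rw [← Equiv.Perm.mul_apply, ← Equiv.Perm.mul_apply, ← map_mul, mul_inv_cancel,
        mul_inv_cancel, map_one, Equiv.Perm.one_apply, Equiv.Perm.one_apply] at h1
      exact h1.symm

end

theorem cent : S_CENT := by
  classical
  intro R I _ _ z hz
  obtain ⟨J, hJ⟩ := exists_J z
  -- `z` commutes with the generators one of whose indices is outside `J`
  have hout : ∀ m : I, m ∉ J → (∀ i r, Commute z (xs i m r : SU R I)) ∧
      ∀ i r, Commute z (xs m i r : SU R I) := by
    intro m hm
    obtain ⟨C, hC, hC1⟩ := exists_col (R := R) m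
    obtain ⟨D, hD, hD1⟩ := exists_row (R := R) m
    obtain ⟨h1, φ, h2, h3⟩ := act_SJ (J := (J : Set I)) (by simpa using hm) hC hC1 hD hD1 hJ
    rw [hz] at h1 h3
    have hφ : ∀ w, φ w = w := by
      intro w
      ext k
      have := h3 w (Finsupp.single k 1)
      rw [Equiv.Perm.one_apply, pg_single_right, pg_single_right, mul_one, mul_one] at this
      exact this
    constructor
    · intro i r
      have := h1 (Finsupp.single i r)
      rw [Equiv.Perm.one_apply, hC1] at this
      exact mul_inv_eq_iff_eq_mul.mp this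
    · intro i r
      have := h2 (Finsupp.single i r)
      rw [hφ, hD1] at this
      exact mul_inv_eq_iff_eq_mul.mp this
  intro y
  have hy : y ∈ Subgroup.closure {z : SU R I | ∃ (i j : I) (r : R), i ≠ j ∧ z = xs i j r} := by
    rw [closure_xs]
    exact Subgroup.mem_top y
  induction hy using Subgroup.closure_induction with
  | mem x hx =>
    obtain ⟨i, j, r, hij, rfl⟩ := hx
    obtain ⟨m, hm⟩ := exists_fresh (J ∪ {i, j})
    simp only [Finset.mem_union, Finset.mem_insert, Finset.mem_singleton, not_or] at hm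
    obtain ⟨hmJ, hmi, hmj⟩ := hm
    have e : (xs i j r : SU R I) = ⁅xs i m r, xs m j 1⁆ := by
      rw [xs_mul (Ne.symm hmi) hmj hij, mul_one]
    have c1 := (hout m hmJ).1 i r
    have c2 := (hout m hmJ).2 j 1
    rw [e, commutatorElement_def]
    exact ((c1.mul_right c2).mul_right c1.inv_right).mul_right c2.inv_right
  | one => exact Commute.one_right _
  | mul x y _ _ hx hy => exact hx.mul_right hy
  | inv x _ hx => exact hx.inv_right

end Pool.Agent.Y455.BH
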