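import Pool.Agent.Y455.BH.Basic

/-!
# Project BH: conjugation (CONJ)
-/

set_option autoImplicit false

open scoped commutatorElement

namespace Pool.Agent.Y455.BH

open Y208.BH

section
variable {R I : Type} [Ring R]

theorem conj_of_comm {G : Type} [Group G] {a b : G} (h : Commute a b) : a * b * a⁻¹ = b := by
  rw [h.eq, mul_inv_cancel_right]

theorem conj_eq {G : Type} [Group G] (a b : G) : a * b * a⁻¹ = ⁅a, b⁆ * b := by
  rw [commutatorElement_def]
  group

theorem conj_eq' {G : Type} [Group G] (a b : G) : a * b * a⁻¹ = ⁅b, a⁆⁻¹ * b := by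
  rw [commutatorElement_def]
  group

/-- `x_ij(a) x_jk(b) x_ij(a)⁻¹` -/
theorem cj1 {i j k : I} (h1 : i ≠ j) (h2 : j ≠ k) (h3 : i ≠ k) (a b : R) :
    (xs i j a : SU R I) * xs j k b * (xs i j a)⁻¹ = xs i k (a * b) * xs j k b := by
  rw [conj_eq, xs_mul h1 h2 h3]

/-- `x_jk(a) x_ij(b) x_jk(a)⁻¹` -/
theorem cj2 {i j k : I} (h1 : i ≠ j) (h2 : j ≠ k) (h3 : i ≠ k) (a b : R) :
    (xs j k a : SU R I) * xs i j b * (xs j k a)⁻¹ = xs i k (-(b * a)) * xs i j b := by
  rw [conj_eq', xs_mul h1 h2 h3, xs_neg]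

/-- `x_ij(a) x_kl(b) x_ij(a)⁻¹` -/
theorem cj3 {i j k l : I} (h1 : j ≠ k) (h2 : i ≠ l) (a b : R) :
    (xs i j a : SU R I) * xs k l b * (xs i j a)⁻¹ = xs k l b := conj_of_comm (xs_comm h1 h2 a b)

/-- the element which moves the index `a` to `b` -/
def mm (a b : I) (s s' : R) : SU R I := xs b a s * xs a b (-s') * xs b a s

theorem mm_conj (a b : I) (s s' : R) (z : SU R I) : mm a b s s' * z * (mm a b s s')⁻¹ =
    xs b a s * (xs a b (-s') * (xs b a s * z * (xs b a s)⁻¹) * (xs a b (-s'))⁻¹) *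
      (xs b a s)⁻¹ := by
  unfold mm
  group

theorem mm_left {a b j : I} (hab : a ≠ b) (hj1 : j ≠ a) (hj2 : j ≠ b) {s s' y : R}
    (hy : s' * s * y = y) :
    mm a b s s' * xs a j y * (mm a b s s')⁻¹ = (xs b j (s * y) : SU R I) := by
  rw [mm_conj, cj1 hab.symm hj1.symm hj2.symm]
  have e1 : (xs a b (-s') : SU R I) * (xs b j (s * y) * xs a j y) * (xs a b (-s'))⁻¹ =
      xs b j (s * y) := by
    have e2 : (xs a b (-s') : SU R I) * (xs b j (s * y) * xs a j y) * (xs a b (-s'))⁻¹ =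
        (xs a b (-s') * xs b j (s * y) * (xs a b (-s'))⁻¹) *
          (xs a b (-s') * xs a j y * (xs a b (-s'))⁻¹) := by group
    rw [e2, cj1 hab hj2.symm hj1.symm, cj3 hab.symm hj1.symm]
    have e3 : -s' * (s * y) = -y := by rw [neg_mul, ← mul_assoc, hy]
    rw [e3, mul_assoc, (xs_comm hj1 hj2.symm (s * y) y : Commute (xs b j (s * y) : SU R I)
      (xs a j y)).eq, ← mul_assoc, ← xs_add, neg_add_cancel, xs_zero, one_mul]
  rw [e1, cj3 hab hj2.symm]

theorem mm_right {a b j : I} (hab : a ≠ b) (hj1 : j ≠ a) (hj2 : j ≠ b) {s s' y : R}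
    (hy : y * (s' * s) = y) :
    mm a b s s' * xs j a y * (mm a b s s')⁻¹ = (xs j b (y * s') : SU R I) := by
  rw [mm_conj, cj3 hj1.symm hab.symm, cj2 hj1 hab hj2]
  have e0 : -(y * -s') = y * s' := by rw [mul_neg, neg_neg]
  rw [e0]
  have e2 : (xs b a s : SU R I) * (xs j b (y * s') * xs j a y) * (xs b a s)⁻¹ =
      (xs b a s * xs j b (y * s') * (xs b a s)⁻¹) * (xs b a s * xs j a y * (xs b a s)⁻¹) := by
    group
  rw [e2, cj2 hj2 hab.symm hj1, cj3 hj1.symm hab.symm]
  have e3 : y * s' * s = y := by rw [mul_assoc, hy]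
  rw [e3, mul_assoc, (xs_comm hj2.symm hj1 (y * s') y : Commute (xs j b (y * s') : SU R I)
    (xs j a y)).eq, ← mul_assoc, ← xs_add, neg_add_cancel, xs_zero, one_mul]

theorem mm_other {a b i j : I} (hi1 : i ≠ a) (hi2 : i ≠ b) (hj1 : j ≠ a) (hj2 : j ≠ b)
    (s s' y : R) :
    mm a b s s' * xs i j y * (mm a b s s')⁻¹ = (xs i j y : SU R I) := by
  rw [mm_conj, cj3 hi1.symm hj2.symm, cj3 hi2.symm hj1.symm, cj3 hi1.symm hj2.symm]

open Classical in
/-- The indices in `J` are moved by an injection `τ` to fresh indices. -/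
theorem exists_move (J : Finset I) (τ : I → I) (hτ : Function.Injective τ) (hJ : ∀ i, τ i ∉ J)
    (s s' : R) (f : R → R) (h1 : ∀ r, s' * s * f r = f r) (h2 : ∀ r, f r * (s' * s) = f r)
    (K : Finset I) (hK : K ⊆ J) :
    ∃ M : SU R I, ∀ i ∈ J, ∀ j ∈ J, i ≠ j → ∀ r, M * xs i j (f r) * M⁻¹ =
      xs (if i ∈ K then τ i else i) (if j ∈ K then τ j else j)
        ((if i ∈ K then s else 1) * f r * (if j ∈ K then s' else 1)) := by
  induction K using Finset.induction_on with
  | empty =>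
    refine ⟨1, fun i _ j _ _ r => ?_⟩
    simp
  | insert a K ha ih =>
    obtain ⟨M, hM⟩ := ih (fun x hx => hK (Finset.mem_insert_of_mem hx))
    have haJ : a ∈ J := hK (Finset.mem_insert_self a K)
    have hne : ∀ i ∈ J, ∀ k, i ≠ τ k := fun i hi k h => hJ k (h ▸ hi)
    have hab : a ≠ τ a := hne a haJ a
    refine ⟨mm a (τ a) s s' * M, fun i hi j hj hij r => ?_⟩
    have e : mm a (τ a) s s' * M * xs i j (f r) * (mm a (τ a) s s' * M)⁻¹ =
        mm a (τ a) s s' * (M * xs i j (f r) * M⁻¹) * (mm a (τ a) s s')⁻¹ := by group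
    rw [e, hM i hi j hj hij r]
    -- an index different from `a` goes to an index different from `a`, `τ a`
    have hoth : ∀ k ∈ J, k ≠ a → (if k ∈ K then τ k else k) ≠ a ∧
        (if k ∈ K then τ k else k) ≠ τ a := by
      intro k hk hka
      by_cases hkK : k ∈ K
      · simp only [hkK, if_true]
        exact ⟨(hne a haJ k).symm, hτ.ne hka⟩
      · simp only [hkK, if_false]
        exact ⟨hka, hne k hk a⟩
    have hins : ∀ k, k ≠ a → (k ∈ insert a K ↔ k ∈ K) := by
      intro k hk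
      rw [Finset.mem_insert]
      constructor
      · rintro (h | h)
        · exact absurd h hk
        · exact h
      · exact Or.inr
    by_cases hia : i = a
    · subst hia
      have hja : j ≠ i := hij.symm
      simp only [ha, if_false, Finset.mem_insert_self, if_true, hins j hja, one_mul]
      rw [mm_left hab (hoth j hj hja).1 (hoth j hj hja).2]
      · rw [← mul_assoc]
      · rw [← mul_assoc, h1]
    · by_cases hja : j = a
      · subst hja
        simp only [ha, if_false, Finset.mem_insert_self, if_true, hins i hia, mul_one]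
        rw [mm_right hab (hoth i hi hia).1 (hoth i hi hia).2]
        rw [mul_assoc, h2]
      · simp only [hins i hia, hins j hja]
        exact mm_other (hoth i hi hia).1 (hoth i hi hia).2 (hoth j hj hja).1 (hoth j hj hja).2 _ _ _

theorem exists_tau [Infinite I] (J : Finset I) :
    ∃ τ : I → I, Function.Injective τ ∧ ∀ i, τ i ∉ J := by
  classical
  have h1 : Infinite {i : I // i ∉ J} := Set.Infinite.to_subtype (Finset.finite_toSet J).infinite_compl
  have h2 : Nonempty (I ≃ {i : I // i ∉ J}) := by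
    apply Cardinal.eq.mp
    have h3 : Cardinal.mk {i : I // i ∉ J} = Cardinal.mk I :=
      Cardinal.mk_compl_of_infinite (J : Set I) (lt_of_lt_of_le
        (Cardinal.mk_lt_aleph0 (α := (J : Set I))) (Cardinal.aleph0_le_mk I))
    exact h3.symm
  obtain ⟨e⟩ := h2
  exact ⟨fun i => (e i).1, fun a b h => e.injective (Subtype.ext h), fun i => (e i).2⟩

end

theorem t_conj : S_CONJ := by
  classical
  intro R I _ _ s s' f g h1 h2 hg z
  obtain ⟨J, hJ⟩ := exists_J z
  obtain ⟨τ, hτ, hτJ⟩ := exists_tau J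
  obtain ⟨M, hM⟩ := exists_move J τ hτ hτJ s s' (fun r => f r) h1 h2 J (Finset.Subset.refl J)
  obtain ⟨M', hM'⟩ := exists_move J τ hτ hτJ (1 : R) 1 (fun r => g r) (by simp) (by simp) J
    (Finset.Subset.refl J)
  refine ⟨M'⁻¹ * M, ?_⟩
  have key : ∀ i ∈ J, ∀ j ∈ J, i ≠ j → ∀ r, (xs i j (g r) : SU R I) =
      (M'⁻¹ * M) * xs i j (f r) * (M'⁻¹ * M)⁻¹ := by
    intro i hi j hj hij r
    have e1 := hM i hi j hj hij r
    have e2 := hM' i hi j hj hij r
    simp only [hi, hj, if_true, one_mul, mul_one] at e1 e2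
    rw [← hg, ← e2] at e1
    have e3 : (M'⁻¹ * M) * xs i j (f r) * (M'⁻¹ * M)⁻¹ = M'⁻¹ * (M * xs i j (f r) * M⁻¹) * M' := by
      group
    rw [e3, e1]
    group
  have hEq : Set.EqOn (mapSU id Function.injective_id g)
      ((MulAut.conj (M'⁻¹ * M)).toMonoidHom.comp (mapSU id Function.injective_id f))
      {z : SU R I | ∃ (i j : I) (r : R), i ∈ (J : Set I) ∧ j ∈ (J : Set I) ∧ i ≠ j ∧
        z = xs i j r} := by
    rintro _ ⟨i, j, r, hi, hj, hij, rfl⟩
    show mapSU id Function.injective_id g (xs i j r) =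
      (M'⁻¹ * M) * mapSU id Function.injective_id f (xs i j r) * (M'⁻¹ * M)⁻¹
    rw [mapSU_xs, mapSU_xs]
    exact key i hi j hj hij r
  exact MonoidHom.eqOn_closure hEq hJ

end Pool.Agent.Y455.BH
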