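import Pool.Agent.Y208.BH.Stm

/-!
# Project BH: elementary facts on the Steinberg group, and SUMU
-/

set_option autoImplicit false

open scoped commutatorElement

namespace Pool.Agent.Y455.BH

open Y208.BH

section
variable {R I : Type} [Ring R]

theorem xs_add (i j : I) (a b : R) : (xs i j (a + b) : SU R I) = xs i j a * xs i j b := by
  by_cases h : i = j
  · subst h
    rw [xs_self, xs_self, xs_self, one_mul]
  · exact (st_xs R I).add i j h a b

theorem xs_zero (i j : I) : (xs i j 0 : SU R I) = 1 := by
  have h := xs_add (R := R) i j 0 0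
  rw [add_zero] at h
  exact left_eq_mul.mp h

theorem xs_neg (i j : I) (r : R) : (xs i j (-r) : SU R I) = (xs i j r)⁻¹ := by
  have h := xs_add (R := R) i j (-r) r
  rw [neg_add_cancel, xs_zero] at h
  exact eq_inv_of_mul_eq_one_left h.symm

theorem xs_mul {i j k : I} (h1 : i ≠ j) (h2 : j ≠ k) (h3 : i ≠ k) (a b : R) :
    ⁅(xs i j a : SU R I), xs j k b⁆ = xs i k (a * b) := (st_xs R I).mul i j k h1 h2 h3 a b

theorem xs_comm {i j k l : I} (h3 : j ≠ k) (h4 : i ≠ l) (a b : R) :
    Commute (xs i j a : SU R I) (xs k l b) := by
  by_cases h1 : i = j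
  · subst h1
    rw [xs_self]
    exact Commute.one_left _
  by_cases h2 : k = l
  · subst h2
    rw [xs_self]
    exact Commute.one_right _
  exact (st_xs R I).comm i j k l h1 h2 h3 h4 a b

/-- the subgroup with indices in `J` -/
def SJ (R : Type) {I : Type} [Ring R] (J : Set I) : Subgroup (SU R I) :=
  Subgroup.closure {z : SU R I | ∃ (i j : I) (r : R), i ∈ J ∧ j ∈ J ∧ i ≠ j ∧ z = xs i j r}

theorem SJ_mono {J J' : Set I} (h : J ⊆ J') : SJ R J ≤ SJ R J' := by
  apply Subgroup.closure_mono
  rintro z ⟨i, j, r, h1, h2, h3, h4⟩
  exact ⟨i, j, r, h h1, h h2, h3, h4⟩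

theorem exists_J (z : SU R I) : ∃ J : Finset I, z ∈ SJ R (J : Set I) := by
  classical
  have hz : z ∈ Subgroup.closure {z : SU R I | ∃ (i j : I) (r : R), i ≠ j ∧ z = xs i j r} := by
    rw [closure_xs]
    exact Subgroup.mem_top z
  induction hz using Subgroup.closure_induction with
  | mem x hx =>
    obtain ⟨i, j, r, h, rfl⟩ := hx
    exact ⟨{i, j}, Subgroup.subset_closure ⟨i, j, r, by simp, by simp, h, rfl⟩⟩
  | one => exact ⟨∅, Subgroup.one_mem _⟩
  | mul x y _ _ hx hy =>
    obtain ⟨J, hJ⟩ := hx
    obtain ⟨J', hJ'⟩ := hy
    refine ⟨J ∪ J', Subgroup.mul_mem _ (SJ_mono ?_ hJ) (SJ_mono ?_ hJ')⟩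
    · intro a ha
      simp only [Finset.coe_union, Set.mem_union]
      exact Or.inl ha
    · intro a ha
      simp only [Finset.coe_union, Set.mem_union]
      exact Or.inr ha
  | inv x _ hx =>
    obtain ⟨J, hJ⟩ := hx
    exact ⟨J, Subgroup.inv_mem _ hJ⟩

theorem exists_fresh [Infinite I] (J : Finset I) : ∃ m, m ∉ J := Infinite.exists_notMem_finset J

end

theorem sumu : S_SUMU := by
  classical
  intro R I _ _ f g h q hh hfg hgf hgq hqf z
  -- the generators commute
  have key : ∀ (i j k l : I) (a b : R), i ≠ j → k ≠ l →
      Commute (xs i j (f a) : SU R I) (xs k l (g b)) := by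
    intro i j k l a b hij hkl
    by_cases h1 : j = k
    · subst h1
      by_cases h2 : i = l
      · subst h2
        obtain ⟨m, hm⟩ := exists_fresh ({i, j} : Finset I)
        simp only [Finset.mem_insert, Finset.mem_singleton, not_or] at hm
        have e : (xs j i (g b) : SU R I) = ⁅xs j m (g b), xs m i q⁆ := by
          rw [xs_mul (Ne.symm hm.2) hm.1 hkl, hgq]
        have c1 : Commute (xs i j (f a) : SU R I) (xs j m (g b)) := by
          rw [← commutatorElement_eq_one_iff_commute, xs_mul hij (Ne.symm hm.2) (Ne.symm hm.1), hfg,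
            xs_zero]
        have c2 : Commute (xs i j (f a) : SU R I) (xs m i q) := by
          apply Commute.symm
          rw [← commutatorElement_eq_one_iff_commute, xs_mul hm.1 hij hm.2, hqf, xs_zero]
        rw [e, commutatorElement_def]
        exact ((c1.mul_right c2).mul_right c1.inv_right).mul_right c2.inv_right
      · rw [← commutatorElement_eq_one_iff_commute, xs_mul hij hkl h2, hfg, xs_zero]
    · by_cases h2 : i = l
      · subst h2
        apply Commute.symm
        rw [← commutatorElement_eq_one_iff_commute, xs_mul hkl hij (Ne.symm h1), hgf, xs_zero]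
      · exact xs_comm h1 h2 _ _
  have hcomm : ∀ z z' : SU R I, Commute (mapSU id Function.injective_id f z)
      (mapSU id Function.injective_id g z') := by
    intro z z'
    have hz : z ∈ Subgroup.closure {z : SU R I | ∃ (i j : I) (r : R), i ≠ j ∧ z = xs i j r} := by
      rw [closure_xs]
      exact Subgroup.mem_top z
    have hz' : z' ∈ Subgroup.closure {z : SU R I | ∃ (i j : I) (r : R), i ≠ j ∧ z = xs i j r} := by
      rw [closure_xs]
      exact Subgroup.mem_top z'
    induction hz using Subgroup.closure_induction with
    | mem x hx =>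
      obtain ⟨i, j, r, hij, rfl⟩ := hx
      induction hz' using Subgroup.closure_induction with
      | mem y hy =>
        obtain ⟨k, l, r', hkl, rfl⟩ := hy
        rw [mapSU_xs, mapSU_xs]
        exact key _ _ _ _ _ _ hij hkl
      | one => rw [map_one]; exact Commute.one_right _
      | mul x y _ _ hx hy => rw [map_mul]; exact hx.mul_right hy
      | inv x _ hx => rw [map_inv]; exact hx.inv_right
    | one => rw [map_one]; exact Commute.one_left _
    | mul x y _ _ hx hy => rw [map_mul]; exact hx.mul_left hy
    | inv x _ hx => rw [map_inv]; exact hx.inv_left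
  let P : SU R I →* SU R I :=
    { toFun := fun z => mapSU id Function.injective_id f z * mapSU id Function.injective_id g z
      map_one' := by rw [map_one, map_one, one_mul]
      map_mul' := fun x y => by
        rw [map_mul, map_mul]
        have := (hcomm y x).eq
        calc _ = mapSU id Function.injective_id f x * (mapSU id Function.injective_id f y *
              mapSU id Function.injective_id g x) * mapSU id Function.injective_id g y := by
              group
          _ = _ := by rw [this]; group }
  have hP : mapSU id Function.injective_id h = P := by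
    refine MonoidHom.eq_of_eqOn_dense (closure_xs R I) ?_
    rintro _ ⟨i, j, r, hij, rfl⟩
    show mapSU id Function.injective_id h (xs i j r) =
      mapSU id Function.injective_id f (xs i j r) * mapSU id Function.injective_id g (xs i j r)
    rw [mapSU_xs, mapSU_xs, mapSU_xs, hh]
    exact xs_add _ _ _ _
  exact DFunLike.congr_fun hP z

end Pool.Agent.Y455.BH
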