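import Pool.Agent.Y455.BH.Cent

/-!
# Project BH: the swindle kills the kernel of the action (K2)
-/

set_option autoImplicit false

open scoped commutatorElement

namespace Pool.Agent.Y455.BH

open Y208.BH

/-- `K_2 = 0`, from the invariance of the kernel under nonunital homomorphisms. -/
theorem k2 (hNUH : S_NUH) : S_K2 := by
  classical
  intro R I _ _ hR z hz
  obtain ⟨e, e', s, s', Φ, h1, h2, h3, h4, h5, h6⟩ := hR
  -- the two summands
  let f : R →ₙ+* R :=
    { toFun := fun a => e * a * e'
      map_mul' := fun a b => by
        show e * (a * b) * e' = e * a * e' * (e * b * e')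
        have : e * a * e' * (e * b * e') = e * a * (e' * e) * b * e' := by
          simp only [mul_assoc]
        rw [this, h1, mul_one]
        simp only [mul_assoc]
      map_zero' := by
        show e * 0 * e' = 0
        rw [mul_zero, zero_mul]
      map_add' := fun a b => by
        show e * (a + b) * e' = e * a * e' + e * b * e'
        rw [mul_add, add_mul] }
  let g : R →ₙ+* R :=
    { toFun := fun a => s * Φ a * s'
      map_mul' := fun a b => by
        show s * Φ (a * b) * s' = s * Φ a * s' * (s * Φ b * s')
        have e1 : s * Φ a * s' * (s * Φ b * s') = s * Φ a * (s' * s * Φ b) * s' := by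
          simp only [mul_assoc]
        rw [e1, h4, map_mul]
        simp only [mul_assoc]
      map_zero' := by
        show s * Φ 0 * s' = 0
        rw [map_zero, mul_zero, zero_mul]
      map_add' := fun a b => by
        show s * Φ (a + b) * s' = s * Φ a * s' + s * Φ b * s'
        rw [map_add, mul_add, add_mul] }
  have hf : ∀ a, f a = e * a * e' := fun _ => rfl
  have hg : ∀ a, g a = s * Φ a * s' := fun _ => rfl
  have hsum := sumu R I f g Φ (s * s') (fun a => h6 a)
    (fun a b => by
      rw [hf, hg]
      have : e * a * e' * (s * Φ b * s') = e * a * (e' * s) * Φ b * s' := by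
        simp only [mul_assoc]
      rw [this, h2]
      simp)
    (fun a b => by
      rw [hf, hg]
      have : s * Φ a * s' * (e * b * e') = s * Φ a * (s' * e) * b * e' := by
        simp only [mul_assoc]
      rw [this, h3]
      simp)
    (fun a => by
      rw [hg]
      have : s * Φ a * s' * (s * s') = s * (Φ a * (s' * s)) * s' := by
        simp only [mul_assoc]
      rw [this, h5])
    (fun a => by
      rw [hf]
      have : s * s' * (e * a * e') = s * (s' * e) * a * e' := by
        simp only [mul_assoc]
      rw [this, h3]
      simp) z
  obtain ⟨k, hk⟩ := t_conj R I s s' Φ g h4 h5 hg z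
  have hcent := cent R I (mapSU id Function.injective_id Φ z) (hNUH R R I Φ z hz)
  rw [← (hcent k).eq, mul_inv_cancel_right] at hk
  rw [hk] at hsum
  have hf1 : mapSU id Function.injective_id f z = 1 := right_eq_mul.mp hsum
  obtain ⟨l, hl⟩ := t_conj R I e e' (NonUnitalRingHom.id R) f
    (fun r => by
      show e' * e * r = r
      rw [h1, one_mul])
    (fun r => by
      show r * (e' * e) = r
      rw [h1, mul_one])
    (fun r => rfl) z
  have hid : mapSU id Function.injective_id (NonUnitalRingHom.id R) z = z := by
    have : mapSU id Function.injective_id (NonUnitalRingHom.id R) = MonoidHom.id (SU R I) := by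
      refine MonoidHom.eq_of_eqOn_dense (closure_xs R I) ?_
      rintro _ ⟨i, j, r, hij, rfl⟩
      rw [mapSU_xs]
      rfl
    rw [this]
    rfl
  rw [hf1, hid] at hl
  have : z = l⁻¹ * (l * z * l⁻¹) * l := by group
  rw [this, ← hl]
  group

end Pool.Agent.Y455.BH
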